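import Pool.Agent.W2helper26.DL.Low

/-!
# The numbers for polylogarithmic space
-/

set_option autoImplicit false

namespace Pool.Agent.W2helper26.DL

open Filter

theorem tendsto_logb : Tendsto (fun n : ℕ => Real.logb 2 n) atTop atTop :=
  (Real.tendsto_logb_atTop (by norm_num)).comp tendsto_natCast_atTop_atTop

/-- the conditions for all `k`, from the condition for polylogarithmic space -/
theorem cond_all {s : ℕ → ℕ}
    (hs : ∀ ε : ℝ, 0 < ε → ∀ᶠ n : ℕ in atTop, (s n : ℝ) ≤ 2 ^ ((2 : ℝ) ^ (Real.logb 2 n ^ ε)))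
    {k : ℕ} (hk : 1 ≤ k) (δ : ℝ) (hδ : 0 < δ) : ∀ᶠ n : ℕ in atTop,
    (s n : ℝ) ≤ 2 ^ ((2 : ℝ) ^ (δ * Real.logb 2 n ^ (1 / (k : ℝ)))) := by
  have hk0 : (0 : ℝ) < k := by exact_mod_cast hk
  have hε : (0 : ℝ) < 1 / (2 * k) := by positivity
  have h1 : Tendsto (fun n : ℕ => Real.logb 2 n ^ (1 / (2 * k : ℝ))) atTop atTop :=
    (tendsto_rpow_atTop hε).comp tendsto_logb
  filter_upwards [hs _ hε, h1.eventually (eventually_ge_atTop (1 / δ)),
    tendsto_logb.eventually (eventually_ge_atTop 1)] with n h2 h3 h4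
  refine h2.trans ?_
  apply Real.rpow_le_rpow_of_exponent_le (by norm_num)
  apply Real.rpow_le_rpow_of_exponent_le (by norm_num)
  set y := Real.logb 2 n ^ (1 / (2 * k : ℝ)) with hy
  have h5 : Real.logb 2 n ^ (1 / (k : ℝ)) = y * y := by
    rw [hy, ← Real.rpow_add (by linarith)]
    congr 1
    field_simp
    norm_num
  rw [h5]
  have h6 : 1 ≤ δ * y := by
    rw [div_le_iff₀ hδ] at h3
    linarith
  have h7 : 0 ≤ y := by
    rw [hy]
    exact Real.rpow_nonneg (by linarith) _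
  nlinarith

/-- the condition for some `k`, from the negated condition for polylogarithmic space -/
theorem cond_some {s : ℕ → ℕ} {ε : ℝ} (hε : 0 < ε)
    (hs : ∀ᶠ n : ℕ in atTop, 2 ^ ((2 : ℝ) ^ (Real.logb 2 n ^ ε)) ≤ (s n : ℝ)) :
    ∃ k : ℕ, 1 ≤ k ∧ ∀ᶠ n : ℕ in atTop,
      2 ^ ((2 : ℝ) ^ (1 * Real.logb 2 n ^ (1 / (k : ℝ)))) ≤ (s n : ℝ) := by
  obtain ⟨k, hk⟩ := exists_nat_gt (max 1 (1 / ε))
  have hk1 : 1 ≤ k := by
    have h1 : (1 : ℝ) < k := (le_max_left _ _).trans_lt hk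
    exact_mod_cast h1.le
  have hk0 : (0 : ℝ) < k := by exact_mod_cast hk1
  refine ⟨k, hk1, ?_⟩
  filter_upwards [hs, tendsto_logb.eventually (eventually_ge_atTop 1)] with n h2 h4
  refine le_trans ?_ h2
  apply Real.rpow_le_rpow_of_exponent_le (by norm_num)
  apply Real.rpow_le_rpow_of_exponent_le (by norm_num)
  rw [one_mul]
  apply Real.rpow_le_rpow_of_exponent_le h4
  rw [div_le_iff₀ hk0]
  have h1 : 1 / ε < k := (le_max_right _ _).trans_lt hk
  rw [div_lt_iff₀ hε] at h1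
  linarith

end Pool.Agent.W2helper26.DL
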