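import Pool.Agent.W2helper26.DL.Stm

/-!
# The coding of the languages with few words, with far code strings
-/

set_option autoImplicit false

namespace Pool.Agent.W2helper26.DL

open Filter Pool.Agent.NPC Pool.Agent.H622R2 Pool.Agent.H620R2.Gauge Pool.Agent.H620R2.Gauge.CC
open Pool.Agent.W2helper86.PL Pool.Agent.W2helper85.PL Pool.Agent.W2helper65.PL
open Pool.Agent.W2helper26.DT (census mm ff finite_length)

/-- coding with pad lengths which dominate given polynomials, only at lengths with few words -/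
theorem exists_codingF_sparse (s : ℕ → ℕ) (g : ℕ → SAlg × Polynomial ℕ)
    (hg : Function.Surjective g) (b : ℕ → Polynomial ℕ)
    (hb : ∀ e, ∀ x a : List Bool, a.length ≤ (g e).2.eval x.length →
      ((g e).1.act (pairBits x a)).length ≤ (b e).eval x.length)
    (ρ : ℕ → ℕ → ℕ) (hρ : ∀ e n, (b e).eval n ≤ ρ e n) :
    ∃ Φ : Oracle → Oracle, (∀ B y, (∀ e x, y ≠ codeF ρ e x) → Φ B y = B y) ∧
      (∀ B e n, {x : List Bool | Φ B (codeF ρ e x) = true ∧ x.length = n}.ncard ≤ s n) ∧
      ∀ B L, IsPSPACE (Φ B) L → ∃ e, ∀ x,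
        (x ∈ L ∧ census L x.length ≤ s x.length) ↔ Φ B (codeF ρ e x) = true := by
  classical
  set V : ℕ → Oracle → List Bool → Prop := fun e A x =>
    Acc (g e).1 (cut ((b e).eval x.length) A) x with hV
  set W : ℕ → Oracle → List Bool → Prop := fun e A x =>
    V e A x ∧ {y | V e A y ∧ y.length = x.length}.ncard ≤ s x.length with hW
  have hlocV : ∀ e A A' x y, y.length = x.length →
      (∀ z : List Bool, z.length < (codeF ρ e x).length → A z = A' z) →
      (V e A y ↔ V e A' y) := by
    intro e A A' x y hy h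
    have hcut : cut ((b e).eval y.length) A = cut ((b e).eval y.length) A' := by
      funext z
      unfold cut
      split_ifs with hz
      · apply h
        have h1 := lt_length_codeF ρ e x
        have h2 := hρ e x.length
        rw [hy] at hz
        omega
      · rfl
    simp only [hV, hcut]
  have hloc : ∀ e A A' x, (∀ z : List Bool, z.length < (codeF ρ e x).length → A z = A' z) →
      (W e A x ↔ W e A' x) := by
    intro e A A' x h
    have h1 : {y | V e A y ∧ y.length = x.length} = {y | V e A' y ∧ y.length = x.length} := by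
      ext y
      constructor
      · rintro ⟨h2, h3⟩
        exact ⟨(hlocV e A A' x y h3 h).1 h2, h3⟩
      · rintro ⟨h2, h3⟩
        exact ⟨(hlocV e A A' x y h3 h).2 h2, h3⟩
    simp only [hW, h1, hlocV e A A' x x rfl h]
  refine ⟨PhiF ρ W, fun B y h => PhiF_not ρ W B y h, ?_, ?_⟩
  · intro B e n
    have h1 : {x : List Bool | PhiF ρ W B (codeF ρ e x) = true ∧ x.length = n} =
        {x | W e (PhiF ρ W B) x ∧ x.length = n} := by
      ext x
      simp only [Set.mem_ofPred_eq, PhiF_code ρ W B hloc e x]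
    rw [h1]
    by_cases h2 : {y | V e (PhiF ρ W B) y ∧ y.length = n}.ncard ≤ s n
    · refine le_trans (Set.ncard_le_ncard ?_ (finite_length _ n)) h2
      rintro x ⟨h3, h4⟩
      exact ⟨h3.1, h4⟩
    · have h3 : {x | W e (PhiF ρ W B) x ∧ x.length = n} = ∅ := by
        ext x
        simp only [Set.mem_ofPred_eq, Set.mem_empty_iff_false, iff_false]
        rintro ⟨h3, h4⟩
        have h5 := h3.2
        rw [h4] at h5
        exact h2 h5
      rw [h3, Set.ncard_empty]
      exact Nat.zero_le _
  · rintro B L ⟨M, p, hM⟩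
    obtain ⟨e, he⟩ := hg (M, p)
    have hLV : ∀ x, x ∈ L ↔ V e (PhiF ρ W B) x := by
      intro x
      change x ∈ L ↔ Acc (g e).1 (cut ((b e).eval x.length) (PhiF ρ W B)) x
      have hbe := hb e
      rw [he] at hbe ⊢
      obtain ⟨hM1, s, z, hs, hz, hL⟩ := hM x
      have hcong : ∀ s, M.Reach (cut ((b e).eval x.length) (PhiF ρ W B)) x s ↔
          M.Reach (PhiF ρ W B) x s := by
        refine reach_congr (fun s => s.length ≤ p.eval x.length) hM1 ?_
        intro s q h1 h2
        have h3 := hbe x s h1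
        rw [h2, List.length_cons] at h3
        unfold cut
        rw [if_pos (by omega)]
      constructor
      · intro hx
        refine ⟨s, (hcong s).2 hs, ?_⟩
        rw [hz, hL.1 hx]
      · rintro ⟨t, ht, ht2⟩
        have hst := reach_unique hs ((hcong t).1 ht) ⟨_, hz⟩ ⟨_, ht2⟩
        rw [hst, ht2] at hz
        simp only [List.cons.injEq, true_and] at hz
        exact hL.2 hz.symm
    refine ⟨e, fun x => ?_⟩
    rw [PhiF_code ρ W B hloc e x]
    have h1 : census L x.length = {y | V e (PhiF ρ W B) y ∧ y.length = x.length}.ncard := by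
      unfold census
      congr 1
      ext y
      simp only [Set.mem_ofPred_eq, hLV y]
    rw [h1, hLV x]

/-- The oracle: the pad lengths are polynomials. -/
theorem exists_coding_far (s : ℕ → ℕ) (C : ℕ) : ∃ (d : ℕ → ℕ) (Φ : Oracle → Oracle),
    (∀ e n, C * Nat.size (e + n + 1) ^ 1 ≤ d e * (Nat.size n + 1) ^ 1) ∧
    (∀ B y, (∀ e x, y ≠ kode 1 d e x) → Φ B y = B y) ∧
    (∀ B e n, {x : List Bool | Φ B (kode 1 d e x) = true ∧ x.length = n}.ncard ≤ s n) ∧
    ∀ B L, IsPSPACE (Φ B) L →
      IsDSpace (Φ B) 1 {x | x ∈ L ∧ census L x.length ≤ s x.length} := by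
  obtain ⟨g, hg⟩ := exists_enum
  choose b hb using fun e : ℕ => act_length (g e).1 (g e).2
  choose c hc using fun e : ℕ => poly_le_pad (b e)
  set d : ℕ → ℕ := fun e => C * (Nat.size (e + 1) + 1) ^ 1 + c e with hd
  obtain ⟨Φ, h1, h2, h3⟩ := exists_codingF_sparse s g hg b hb
    (fun e n => 2 ^ (d e * (Nat.size n + 1) ^ 1)) (by
      intro e n
      refine (hc e n 1 le_rfl).trans (Nat.pow_le_pow_right (by norm_num) ?_)
      exact Nat.mul_le_mul_right _ (Nat.le_add_left _ _))
  refine ⟨d, Φ, ?_, fun B y h => h1 B y h, fun B e n => h2 B e n, fun B L hL => ?_⟩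
  · intro e n
    calc C * Nat.size (e + n + 1) ^ 1
        ≤ C * ((Nat.size (e + 1) + 1) * (Nat.size n + 1)) ^ 1 :=
          Nat.mul_le_mul_left _ (Nat.pow_le_pow_left (size_add_le e n) _)
      _ = C * (Nat.size (e + 1) + 1) ^ 1 * (Nat.size n + 1) ^ 1 := by rw [mul_pow, mul_assoc]
      _ ≤ d e * (Nat.size n + 1) ^ 1 := Nat.mul_le_mul_right _ (Nat.le_add_right _ _)
  · obtain ⟨e, he⟩ := h3 B L hL
    obtain ⟨P, c', hP, hPx⟩ := p_prog 1 e (d e) le_rfl
    exact ⟨P, c', hP, fun x => ⟨(hPx (Φ B) x).1, _, (hPx (Φ B) x).2, he x⟩⟩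

end Pool.Agent.W2helper26.DL
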