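import Pool.Agent.W2helper26.DL.Patch

/-!
# The oracles are many
-/

set_option autoImplicit false

namespace Pool.Agent.W2helper26.DL

open Filter Finset Pool.Agent.NPC Pool.Agent.H620R2.Gauge Pool.Agent.H676 MeasureTheory
open Pool.Agent.W2helper86.PL Pool.Agent.W2helper85.PL Pool.Agent.W2helper23.PL H568R2
open Pool.Agent.W2helper26.DT (census mm ff TT finite_length card_TT_real)

/-! ### Few code strings -/

theorem few_codes (C : ℕ) (d : ℕ → ℕ)
    (hd : ∀ e n, (C + 2) * Nat.size (e + n + 1) ^ 1 ≤ d e * (Nat.size n + 1) ^ 1) (n : ℕ)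
    (hn : 16 ≤ n) : {v : Fin n → Bool | IsCode d (List.ofFn v)}.ncard ≤ 2 ^ (n / 2 + 1) := by
  classical
  have h1 := p_sparse 1 (C + 2) d le_rfl hd (2 ^ (n + 1)) (n / 2) (by
    rw [Nat.log_pow (by norm_num)]
    have h2 : n / 2 + 1 < 2 ^ Nat.size (n / 2 + 1) := Nat.lt_size_self _
    have h3 : 2 ^ ((C + 2) * Nat.size (n / 2 + 1) ^ 1) =
        (2 ^ Nat.size (n / 2 + 1)) ^ (C + 2) := by
      rw [pow_one, mul_comm, pow_mul]
    rw [h3]
    have h4 : (2 ^ Nat.size (n / 2 + 1)) ^ 2 ≤ (2 ^ Nat.size (n / 2 + 1)) ^ (C + 2) :=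
      Nat.pow_le_pow_right (by positivity) (by omega)
    refine lt_of_lt_of_le ?_ h4
    have h5 : (n / 2 + 2) ^ 2 ≤ (2 ^ Nat.size (n / 2 + 1)) ^ 2 := Nat.pow_le_pow_left (by omega) 2
    refine lt_of_lt_of_le ?_ h5
    have h6 : n ≤ 2 * (n / 2) + 1 := by omega
    nlinarith)
  refine le_trans ?_ h1
  rw [← Set.ncard_coe_finset]
  refine Set.ncard_le_ncard_of_injOn (fun v => idx (List.ofFn v)) ?_ ?_ (Finset.finite_toSet _)
  · intro v hv
    rw [Finset.mem_coe, Finset.mem_filter, Finset.mem_range]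
    refine ⟨?_, ?_⟩
    · have h2 := idx_lt (List.ofFn v)
      rw [List.length_ofFn] at h2
      omega
    · rw [str_idx]
      exact hv
  · intro v _ v' _ h
    exact List.ofFn_injective (Ev.idx_inj h)

/-! ### The event -/

theorem right_orc {P : List Ins} {R s p n N : ℕ} (hR : ∀ (x a : List Bool) (s : ℕ),
    ∃ Q : Finset (List Bool), Q.card ≤ 2 ^ (R * (s + 1)) ∧
      (∀ q ∈ Q, q.length ≤ 2 ^ (R * (s + 1))) ∧
      ∀ A A' : Oracle, (∀ q ∈ Q, A q = A' q) → (BAcc P A x a s ↔ BAcc P A' x a s))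
    (hN : 2 ^ (2 * n + 1) ≤ N) (hN' : 2 ^ (2 ^ (R * (s + 1)) + 1) ≤ N) {A : Oracle}
    (h : Right P s p n A) : Right P s p n (orc N (pre N A)) := by
  obtain ⟨a, ha, hright⟩ := h
  have horc : ∀ y : List Bool, idx y < N → orc N (pre N A) y = A y := by
    intro y hy
    unfold orc
    rw [dif_pos hy]
    show A (str (idx y)) = A y
    rw [str_idx]
  refine ⟨a, ha, fun x hx => ?_⟩
  obtain ⟨Q, -, hQl, hQ⟩ := hR x a s
  have h1 : BAcc P (orc N (pre N A)) x a s ↔ BAcc P A x a s := by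
    apply hQ
    intro q hq
    apply horc
    apply Ev.idx_lt_of
    exact (Nat.pow_le_pow_right (by norm_num) (by have := hQl q hq; omega)).trans hN'
  have h2 : ptr (orc N (pre N A)) x = ptr A x := by
    apply Ev.ptr_congr
    intro j hj
    apply horc
    apply Ev.idx_lt_of
    rw [Ev.length_adr hj.le, hx]
    exact hN
  have h3 : x ∈ hard (orc N (pre N A)) ↔ x ∈ hard A := by
    show orc N (pre N A) (ptr _ x) = true ↔ A (ptr A x) = true
    rw [h2, horc]
    apply Ev.idx_lt_of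
    rw [Ev.length_ptr, hx]
    exact (Nat.pow_le_pow_right (by norm_num) (by omega)).trans hN
  rw [h1, h3]
  exact hright x hx

theorem eventT (P : List Ins) {R : ℕ} (hR : ∀ (x a : List Bool) (s : ℕ),
    ∃ Q : Finset (List Bool), Q.card ≤ 2 ^ (R * (s + 1)) ∧
      (∀ q ∈ Q, q.length ≤ 2 ^ (R * (s + 1))) ∧
      ∀ A A' : Oracle, (∀ q ∈ Q, A q = A' q) → (BAcc P A x a s ↔ BAcc P A' x a s))
    {s p n m K N : ℕ} (hn : 2 ≤ n) (hm : 2 * (m + (m * 2 ^ (R * (s + 1)) + K)) ≤ 2 ^ n)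
    (hN : 2 ^ (2 * n + 1) ≤ N) (hN' : 2 ^ (2 ^ (R * (s + 1)) + 1) ≤ N)
    (d : ℕ → ℕ) (hK : {v : Fin n → Bool | IsCode d (List.ofFn v)}.ncard ≤ K)
    (σ : ℕ → ℕ) {Φ : Oracle → Oracle}
    (hΦ : ∀ B y, (∀ e x, y ≠ kode 1 d e x) → Φ B y = B y)
    (hc : ∀ B e n, {x : List Bool | Φ B (kode 1 d e x) = true ∧ x.length = n}.ncard ≤ σ n)
    (δ : ℝ) (hδ : 2 ^ (p + 1) * (3 / 4 : ℝ) ^ m * 2 ^ ff σ N ≤ δ) :
    ∃ S : Set (List Bool), (∀ B : Oracle, Right P s p n (Φ B) → ∃ w ∈ S, Extends B w) ∧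
      ∑' w : S, ENNReal.ofReal (2 ^ ((0 : ℝ) - w.1.length)) ≤ ENNReal.ofReal δ := by
  classical
  obtain ⟨D, hD1, hD2⟩ := Ev.exists_short p
  set E : (Fin N → Bool) → Prop := fun ω =>
    ∃ τ ∈ TT σ N, Right P s p n (orc N (pt d τ ω)) with hE
  have hall : (Nat.card {ω : Fin N → Bool // E ω} : ℝ) ≤
      (TT σ N).card * (2 ^ (p + 1) * ((3 / 4) ^ m * Fintype.card (Fin N → Bool))) := by
    have h1 : Nat.card {ω : Fin N → Bool // E ω} ≤
        ∑ τ : TT σ N, ∑ a : D, Nat.card {ω : Fin N → Bool // ∀ x : List Bool, x.length = n →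
          (BAcc P (orc N (pt d τ.1 ω)) x a.1 s ↔ x ∈ hard (orc N (pt d τ.1 ω)))} := by
      have h2 : ∑ τ : TT σ N, ∑ a : D, Nat.card {ω : Fin N → Bool // ∀ x : List Bool,
          x.length = n → (BAcc P (orc N (pt d τ.1 ω)) x a.1 s ↔ x ∈ hard (orc N (pt d τ.1 ω)))} =
          Nat.card (Σ τ : TT σ N, Σ a : D, {ω : Fin N → Bool // ∀ x : List Bool,
          x.length = n → (BAcc P (orc N (pt d τ.1 ω)) x a.1 s ↔
            x ∈ hard (orc N (pt d τ.1 ω)))}) := by
        rw [Nat.card_sigma]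
        refine Finset.sum_congr rfl fun τ _ => ?_
        rw [Nat.card_sigma]
      rw [h2]
      refine Nat.card_le_card_of_injective (fun ω =>
        (⟨⟨ω.2.choose, ω.2.choose_spec.1⟩,
          ⟨ω.2.choose_spec.2.choose, hD2 _ ω.2.choose_spec.2.choose_spec.1⟩,
          ω.1, ω.2.choose_spec.2.choose_spec.2⟩ :
        Σ τ : TT σ N, Σ a : D, {ω : Fin N → Bool // ∀ x : List Bool,
          x.length = n → (BAcc P (orc N (pt d τ.1 ω)) x a.1 s ↔
            x ∈ hard (orc N (pt d τ.1 ω)))})) ?_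
      intro ω ω' he
      apply Subtype.ext
      exact congrArg (fun z => z.2.2.1) he
    calc (Nat.card {ω : Fin N → Bool // E ω} : ℝ) ≤
          ∑ τ : TT σ N, ∑ a : D, (Nat.card {ω : Fin N → Bool // ∀ x : List Bool, x.length = n →
          (BAcc P (orc N (pt d τ.1 ω)) x a.1 s ↔ x ∈ hard (orc N (pt d τ.1 ω)))} : ℝ) := by
            exact_mod_cast h1
      _ ≤ ∑ τ : TT σ N, ∑ a : D, ((3 / 4) ^ m * (Fintype.card (Fin N → Bool) : ℝ)) :=
        Finset.sum_le_sum fun τ _ => Finset.sum_le_sum fun a _ =>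
          oneT P hR hn hm hN hN' d hK τ.1 a.1
      _ = (TT σ N).card * (D.card * ((3 / 4) ^ m * Fintype.card (Fin N → Bool))) := by
        simp only [Finset.sum_const, nsmul_eq_mul, Finset.card_univ, Fintype.card_coe]
      _ ≤ _ := by
        apply mul_le_mul_of_nonneg_left _ (by positivity)
        apply mul_le_mul_of_nonneg_right _ (by positivity)
        exact_mod_cast hD1
  obtain ⟨S, h1, h2⟩ := cover_of_event (N := N) E {B | Right P s p n (Φ B)} (by
    intro B hB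
    obtain ⟨τ, hτ, hpre⟩ := pre_Phi hΦ hc B N
    refine ⟨τ, hτ, ?_⟩
    rw [← hpre]
    exact right_orc hR hN hN' hB) (fun _ => 0) δ (by
    refine le_trans ?_ hδ
    have h1 := card_of_Ex E
    have h2 : (Fintype.card (Fin N → Bool) : ℝ) = 2 ^ (N : ℝ) := by
      rw [Fintype.card_fun, Fintype.card_bool, Fintype.card_fin, Real.rpow_natCast]
      push_cast
      rfl
    rw [Nat.card_eq_fintype_card, Fintype.card_subtype, h2] at hall
    rw [← h1, Real.rpow_zero, mul_one]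
    have h3 : (2 : ℝ) ^ (N : ℝ) * 2 ^ (-(N : ℝ)) = 1 := by
      rw [← Real.rpow_add (by norm_num), add_neg_cancel, Real.rpow_zero]
    calc _ ≤ (((TT σ N).card : ℝ) * (2 ^ (p + 1) * ((3 / 4 : ℝ) ^ m * (2 : ℝ) ^ (N : ℝ)))) *
          (2 : ℝ) ^ (-(N : ℝ)) := by
          refine mul_le_mul_of_nonneg_right ?_ (by positivity)
          refine le_trans (le_of_eq ?_) hall
          congr 2
          ext ω
          simp only [Finset.mem_filter]
      _ = 2 ^ (p + 1) * (3 / 4 : ℝ) ^ m * ((TT σ N).card : ℝ) *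
          ((2 : ℝ) ^ (N : ℝ) * 2 ^ (-(N : ℝ))) := by ring
      _ = 2 ^ (p + 1) * (3 / 4 : ℝ) ^ m * ((TT σ N).card : ℝ) := by rw [h3, mul_one]
      _ ≤ _ := mul_le_mul_of_nonneg_left (card_TT_real σ N) (by positivity))
  exact ⟨S, h1, by simpa using h2⟩

/-! ### One program -/

theorem ff_nonneg (s : ℕ → ℕ) (N : ℕ) : 0 ≤ ff s N := by
  unfold ff
  have : (0 : ℝ) ≤ N := Nat.cast_nonneg N
  exact mul_nonneg (Nat.cast_nonneg _) (Real.logb_nonneg (by norm_num) (by linarith))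

theorem null_one {k : ℕ} (hk : 1 ≤ k) (σ : ℕ → ℕ) (hσ : CondK (ff σ) k) (C : ℕ) {d : ℕ → ℕ}
    (hd : ∀ e n, (C + 2) * Nat.size (e + n + 1) ^ 1 ≤ d e * (Nat.size n + 1) ^ 1)
    {Φ : Oracle → Oracle}
    (hΦ : ∀ B y, (∀ e x, y ≠ kode 1 d e x) → Φ B y = B y)
    (hc : ∀ B e n, {x : List Bool | Φ B (kode 1 d e x) = true ∧ x.length = n}.ncard ≤ σ n)
    (θ : List Ins × ℕ × Polynomial ℕ) : ranO {B | Φ B ∈ XX k θ} = 0 := by
  obtain ⟨P, c, p⟩ := θ
  obtain ⟨R, hR⟩ := p_loc P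
  have key : ∀ δ : ℝ, 0 < δ → ranO {B | Φ B ∈ XX k (P, c, p)} ≤ ENNReal.ofReal δ := by
    intro δ hδ
    obtain ⟨M, hM⟩ : ∃ M : ℕ, M = 2 ^ 18 := ⟨_, rfl⟩
    set δ' : ℝ := min δ ((3 / 4) ^ M) with hδ'
    have hδ'0 : 0 < δ' := lt_min hδ (by positivity)
    obtain ⟨n, m, N, hn, hm, hN, hN', hle⟩ := p_num k hk (ff σ) hσ (R * (c + 1) + 1) p δ' hδ'0
    have hsz : 1 ≤ Nat.size n ^ k := Nat.one_le_pow _ _ (Nat.size_pos.2 hn)
    -- `m` is large
    have hmM : M ≤ m := by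
      by_contra hlt
      push Not at hlt
      have h1 : (3 / 4 : ℝ) ^ m ≤ (3 / 4) ^ M := by
        have h2 : (1 : ℝ) ≤ 2 ^ (p.eval n + 1) := one_le_pow₀ (by norm_num)
        have h3 : (1 : ℝ) ≤ 2 ^ ff σ N := Real.one_le_rpow (by norm_num) (ff_nonneg σ N)
        have h4 : (0 : ℝ) < (3 / 4) ^ m := by positivity
        calc (3 / 4 : ℝ) ^ m = 1 * (3 / 4) ^ m * 1 := by ring
          _ ≤ 2 ^ (p.eval n + 1) * (3 / 4 : ℝ) ^ m * 2 ^ ff σ N := by
            apply mul_le_mul (mul_le_mul_of_nonneg_right h2 h4.le) h3 (by norm_num) (by positivity)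
          _ ≤ δ' := hle
          _ ≤ _ := min_le_right _ _
      have h2 : (3 / 4 : ℝ) ^ M < (3 / 4) ^ m :=
        pow_lt_pow_right_of_lt_one₀ (by norm_num) (by norm_num) hlt
      linarith
    have hn18 : 18 ≤ n := by
      by_contra hlt
      push Not at hlt
      have h1 : 2 ^ n ≤ 2 ^ 17 := Nat.pow_le_pow_right (by norm_num) (by omega)
      have h2 : (2 : ℕ) ^ 18 = 2 * 2 ^ 17 := by norm_num
      have h3 := Nat.zero_le (m * 2 ^ ((R * (c + 1) + 1) * Nat.size n ^ k + (R * (c + 1) + 1)))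
      omega
    set K := 2 ^ (n / 2 + 1) with hK
    have hK4 : 4 * K ≤ 2 ^ n := by
      have h1 : 4 * K = 2 ^ (n / 2 + 3) := by rw [hK]; ring
      rw [h1]
      exact Nat.pow_le_pow_right (by norm_num) (by omega)
    have hs : R * (c * Nat.size n ^ k + c + 1) + 2 ≤
        (R * (c + 1) + 1) * Nat.size n ^ k + (R * (c + 1) + 1) := by
      have e : (R * (c + 1) + 1) * Nat.size n ^ k + (R * (c + 1) + 1) =
          R * (c * Nat.size n ^ k + c + 1) + R * Nat.size n ^ k + Nat.size n ^ k + 1 := by ring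
      omega
    have hpow : 4 * 2 ^ (R * (c * Nat.size n ^ k + c + 1)) ≤
        2 ^ ((R * (c + 1) + 1) * Nat.size n ^ k + (R * (c + 1) + 1)) := by
      have h1 : 4 * 2 ^ (R * (c * Nat.size n ^ k + c + 1)) =
          2 ^ (R * (c * Nat.size n ^ k + c + 1) + 2) := by ring
      rw [h1]
      exact Nat.pow_le_pow_right (by norm_num) hs
    have hm' : 2 * (m + (m * 2 ^ (R * (c * Nat.size n ^ k + c + 1)) + K)) ≤ 2 ^ n := by
      set X := 2 ^ (R * (c * Nat.size n ^ k + c + 1)) with hX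
      have h1 : 1 ≤ X := Nat.one_le_two_pow
      have h2 : m * (4 * X) ≤
          m * 2 ^ ((R * (c + 1) + 1) * Nat.size n ^ k + (R * (c + 1) + 1)) :=
        Nat.mul_le_mul_left _ hpow
      have h3 : m * 1 ≤ m * X := Nat.mul_le_mul_left _ h1
      have h4 : m * (4 * X) = 4 * (m * X) := by ring
      omega
    obtain ⟨S, hS, hsum⟩ := eventT P hR (s := c * Nat.size n ^ k + c) (p := p.eval n) (n := n)
      (m := m) (K := K) (N := N) (by omega) hm' hN
      ((Nat.pow_le_pow_right (by norm_num) (by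
        have h1 := hpow
        omega)).trans hN') d (few_codes C d hd n (by omega)) σ hΦ hc δ
      (hle.trans (min_le_left _ _))
    have hsub : {B | Φ B ∈ XX k (P, c, p)} ⊆ ⋃ w : S, {B | Extends B w.1} := by
      rintro B ⟨h, h1, h2⟩
      have h3 : Right P (c * Nat.size n ^ k + c) (p.eval n) n (Φ B) := by
        refine ⟨h n, h1 n, fun x hx => ?_⟩
        obtain ⟨h3, h4⟩ := h2 x
        simp only [hx] at h3 h4
        rw [bacc_iff h3, h4]
      obtain ⟨w, hw, hE⟩ := hS B h3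
      exact Set.mem_iUnion.2 ⟨⟨w, hw⟩, hE⟩
    refine (measure_mono hsub).trans ((measure_iUnion_le _).trans (le_trans ?_ hsum))
    refine ENNReal.tsum_le_tsum fun w => ?_
    refine (ranO_extends (fun B => B) ∅ (fun B y _ => rfl) w.1).trans ?_
    simp
  refine le_antisymm ?_ zero_le
  refine ENNReal.le_of_forall_pos_le_add fun ε hε _ => ?_
  rw [zero_add]
  refine (key ε hε).trans (le_of_eq ENNReal.ofReal_coe_nnreal)

/-! ### The oracles -/

/-- The oracles relative to which the languages of `PSPACE` with few words are in logarithmic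
space but the hard language is not in polylogarithmic space are many. -/
theorem not_null_far (σ : ℕ → ℕ) (f : ℕ → ℝ) (hf : ¬ CondK f 1) :
    ¬ Null f {A | (∀ L, IsPSPACE A L →
        IsDSpace A 1 {x | x ∈ L ∧ census L x.length ≤ σ x.length}) ∧
      ∀ k, 1 ≤ k → CondK (ff σ) k → ¬ IsNSpacePoly A k (hard A)} := by
  classical
  obtain ⟨C, hC⟩ := p_num2 1 le_rfl f hf
  obtain ⟨N₀, hN₀⟩ := Filter.eventually_atTop.1 hC
  obtain ⟨d, Φ, hd, hΦ, hc, hP⟩ := exists_coding_far σ (C + 2)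
  set c : ℝ := ∑ i ∈ Finset.range N₀, |(i : ℝ) - f i| with hcd
  have hc0 : 0 ≤ c := Finset.sum_nonneg fun _ _ => abs_nonneg _
  set G : Set Oracle := {B | ∀ k, 1 ≤ k → CondK (ff σ) k → ¬ IsNSpacePoly (Φ B) k (hard (Φ B))}
    with hG
  have hcount := poly_countable
  have hGc : ranO Gᶜ = 0 := by
    have h1 : Gᶜ ⊆ ⋃ kθ : {k : ℕ // 1 ≤ k ∧ CondK (ff σ) k} × (List Ins × ℕ × Polynomial ℕ),
        {B | Φ B ∈ XX kθ.1.1 kθ.2} := by
      intro B hB
      simp only [hG, Set.mem_compl_iff, Set.mem_ofPred_eq, not_forall, not_not] at hB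
      obtain ⟨k, hk, hkσ, P, c, h, p, h2, h3⟩ := hB
      exact Set.mem_iUnion.2 ⟨(⟨k, hk, hkσ⟩, (P, c, p)), h, h2, h3⟩
    refine measure_mono_null h1 (measure_iUnion_null fun kθ => ?_)
    exact null_one kθ.1.2.1 σ kθ.1.2.2 C hd hΦ hc kθ.2
  have hGpos : 0 < ranO G := by
    rw [pos_iff_ne_zero]
    intro h0
    have h1 : ranO (G ∪ Gᶜ) ≤ ranO G + ranO Gᶜ := measure_union_le _ _
    rw [Set.union_compl_self, measure_univ, h0, hGc, add_zero] at h1
    exact absurd h1 (by norm_num)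
  refine not_null_of f G hGpos Φ {y | ∃ e x, y = kode 1 d e x} ?_ c ?_ _ ?_
  · intro B y hy
    apply hΦ
    intro e x he
    exact hy ⟨e, x, he⟩
  · intro N
    rcases Nat.lt_or_ge N N₀ with hN | hN
    · have h4 : (((Finset.range N).filter
          (fun i => str i ∈ {y | ∃ e x, y = kode 1 d e x})).card : ℝ) ≤ N := by
        have := Finset.card_filter_le (Finset.range N)
          (fun i => str i ∈ {y | ∃ e x, y = kode 1 d e x})
        rw [Finset.card_range] at this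
        exact_mod_cast this
      have h5 : |(N : ℝ) - f N| ≤ c :=
        Finset.single_le_sum (f := fun i : ℕ => |(i : ℝ) - f i|) (fun _ _ => abs_nonneg _)
          (Finset.mem_range.2 hN)
      have h6 := le_abs_self ((N : ℝ) - f N)
      linarith
    · obtain ⟨J, hJ, hJ'⟩ := hN₀ N hN
      have h4 := p_sparse 1 (C + 2) d le_rfl hd N J (hJ.trans_le (Nat.pow_le_pow_right (by norm_num)
        (Nat.mul_le_mul_right _ (by omega))))
      have h5 : (((Finset.range N).filter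
          (fun i => str i ∈ {y | ∃ e x, y = kode 1 d e x})).card : ℝ) ≤ 2 ^ (J + 1) := by
        have h6 : ((Finset.range N).filter
          (fun i => str i ∈ {y | ∃ e x, y = kode 1 d e x})).card ≤ 2 ^ (J + 1) := by
          refine le_trans (le_of_eq ?_) h4
          congr 1
        exact_mod_cast h6
      linarith
  · intro B hB
    exact ⟨fun L hL => hP B L hL, fun k hk hkσ => hB k hk hkσ⟩

end Pool.Agent.W2helper26.DL
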