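import Pool.Agent.W2helper26.DL.Cod

/-!
# Patches, and the event for one program with a fixed patch
-/

set_option autoImplicit false

namespace Pool.Agent.W2helper26.DL

open Filter Finset Pool.Agent.NPC Pool.Agent.H620R2.Gauge Pool.Agent.H676
open Pool.Agent.W2helper86.PL Pool.Agent.W2helper85.PL
open Pool.Agent.W2helper26.DT (census mm ff TT finite_length)

/-- being a code string -/
def IsCode (d : ℕ → ℕ) (y : List Bool) : Prop := ∃ e x, y = kode 1 d e x

theorem length_kode_ge (d : ℕ → ℕ) (e : ℕ) (x : List Bool) :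
    e + x.length < (kode 1 d e x).length := by
  unfold kode
  simp only [List.length_append, List.length_replicate, List.length_cons]
  generalize 2 ^ (d e * (Nat.size x.length + 1) ^ 1) = z
  omega

theorem not_isCode_head {d : ℕ → ℕ} (l : List Bool) : ¬ IsCode d (false :: false :: l) := by
  rintro ⟨e, x, hx⟩
  unfold kode at hx
  cases e with
  | zero =>
    obtain ⟨m, hm⟩ : ∃ m, 2 ^ (d 0 * (Nat.size x.length + 1) ^ 1) = m + 1 :=
      ⟨2 ^ (d 0 * (Nat.size x.length + 1) ^ 1) - 1, by
        have := Nat.two_pow_pos (d 0 * (Nat.size x.length + 1) ^ 1)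
        omega⟩
    rw [hm] at hx
    simp [List.replicate_succ] at hx
  | succ e => simp [List.replicate_succ] at hx

open Classical in
/-- the sequence `ω` with the bits at the code strings replaced by those of `τ` -/
noncomputable def pt (d : ℕ → ℕ) {N : ℕ} (τ ω : Fin N → Bool) : Fin N → Bool := fun i =>
  if IsCode d (str i) then τ i else ω i

theorem pre_Phi {s : ℕ → ℕ} {d : ℕ → ℕ} {Φ : Oracle → Oracle}
    (hΦ : ∀ B y, (∀ e x, y ≠ kode 1 d e x) → Φ B y = B y)
    (hc : ∀ B e n, {x : List Bool | Φ B (kode 1 d e x) = true ∧ x.length = n}.ncard ≤ s n)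
    (B : Oracle) (N : ℕ) : ∃ τ ∈ TT s N, pre N (Φ B) = pt d τ (pre N B) := by
  classical
  refine ⟨fun i => if IsCode d (str i) then Φ B (str i) else false, ?_, ?_⟩
  · rw [TT, Finset.mem_filter]
    refine ⟨Finset.mem_univ _, ?_⟩
    set S : Finset (Fin N) := univ.filter (fun i =>
      (if IsCode d (str i) then Φ B (str i) else false) = true) with hS
    set ℓ := Nat.log 2 N with hℓ
    have hfin : ∀ e n, {x : List Bool | Φ B (kode 1 d e x) = true ∧ x.length = n}.Finite :=
      fun e n => finite_length _ n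
    let U : Finset (ℕ × List Bool) := (Finset.range (ℓ + 1)).biUnion fun e =>
      (Finset.range (ℓ + 1)).biUnion fun n => ((hfin e n).toFinset).image (fun x => (e, x))
    have hU : U.card ≤ mm s N := by
      refine Finset.card_biUnion_le.trans ?_
      unfold mm
      rw [← hℓ]
      calc ∑ e ∈ Finset.range (ℓ + 1), ((Finset.range (ℓ + 1)).biUnion fun n =>
            ((hfin e n).toFinset).image (fun x => (e, x))).card
          ≤ ∑ _e ∈ Finset.range (ℓ + 1), ∑ n ∈ Finset.range (ℓ + 1), s n := by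
            refine Finset.sum_le_sum fun e _ => Finset.card_biUnion_le.trans ?_
            refine Finset.sum_le_sum fun n _ => Finset.card_image_le.trans ?_
            rw [← Set.ncard_eq_toFinset_card _ (hfin e n)]
            exact hc B e n
        _ = (ℓ + 1) * ∑ n ∈ Finset.range (ℓ + 1), s n := by
            rw [Finset.sum_const, Finset.card_range, smul_eq_mul]
    refine le_trans ?_ hU
    have hex : ∀ i ∈ S, ∃ e x, str i = kode 1 d e x ∧ Φ B (str i) = true := by
      intro i hi
      rw [hS, Finset.mem_filter] at hi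
      by_cases h : IsCode d (str i)
      · have h2 := hi.2
        rw [if_pos h] at h2
        obtain ⟨e, x, hx⟩ := h
        exact ⟨e, x, hx, h2⟩
      · have h2 := hi.2
        rw [if_neg h] at h2
        exact absurd h2 (by simp)
    choose! ee xx hx hv using hex
    refine Finset.card_le_card_of_injOn (fun i => (ee i, xx i)) ?_ ?_
    · intro i hi
      have h1 := hx i hi
      have h2 := hv i hi
      have h3 := length_kode_ge d (ee i) (xx i)
      rw [← h1, length_str] at h3
      have h4 : Nat.log 2 ((i : ℕ) + 1) ≤ ℓ := Nat.log_mono_right (by omega)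
      simp only [U, Finset.coe_biUnion, Finset.mem_coe, Set.mem_iUnion, Finset.mem_range,
        Finset.coe_image, Set.mem_image]
      refine ⟨ee i, by omega, (xx i).length, by omega, xx i, ?_, rfl⟩
      refine (Set.Finite.mem_toFinset _).2 ⟨?_, rfl⟩
      rw [← h1]
      exact h2
    · intro i hi j hj hij
      have h1 := hx i hi
      have h2 := hx j hj
      simp only [Prod.mk.injEq] at hij
      rw [hij.1, hij.2, ← h2] at h1
      exact Fin.ext (str_injective h1)
  · funext i
    unfold pt pre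
    by_cases h : IsCode d (str i)
    · simp [h]
    · simp only [if_neg h]
      exact hΦ B _ fun e x hx => h ⟨e, x, hx⟩

open Ev in
/-- one advice string, one patch -/
theorem oneT (P : List Ins) {R : ℕ} (hR : ∀ (x a : List Bool) (s : ℕ),
    ∃ Q : Finset (List Bool), Q.card ≤ 2 ^ (R * (s + 1)) ∧
      (∀ q ∈ Q, q.length ≤ 2 ^ (R * (s + 1))) ∧
      ∀ A A' : Oracle, (∀ q ∈ Q, A q = A' q) → (BAcc P A x a s ↔ BAcc P A' x a s))
    {s n m K N : ℕ} (hn : 2 ≤ n) (hm : 2 * (m + (m * 2 ^ (R * (s + 1)) + K)) ≤ 2 ^ n)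
    (hN : 2 ^ (2 * n + 1) ≤ N) (hN' : 2 ^ (2 ^ (R * (s + 1)) + 1) ≤ N)
    (d : ℕ → ℕ) (hK : {v : Fin n → Bool | IsCode d (List.ofFn v)}.ncard ≤ K)
    (τ : Fin N → Bool) (a : List Bool) :
    (Nat.card {ω : Fin N → Bool // ∀ x : List Bool, x.length = n →
      (BAcc P (orc N (pt d τ ω)) x a s ↔ x ∈ hard (orc N (pt d τ ω)))} : ℝ) ≤
    (3 / 4) ^ m * Fintype.card (Fin N → Bool) := by
  classical
  -- the inputs
  obtain ⟨n', rfl⟩ : ∃ n', n = n' + 2 := ⟨n - 2, by omega⟩
  have hmle : m ≤ 2 ^ n' := by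
    have h1 : 1 ≤ 2 ^ (R * (s + 1)) := Nat.one_le_two_pow
    have h2 : 2 ^ (n' + 2) = 4 * 2 ^ n' := by ring
    have h3 : m * 1 ≤ m * 2 ^ (R * (s + 1)) := Nat.mul_le_mul_left _ h1
    omega
  obtain ⟨ι⟩ : Nonempty (Fin m ↪ (Fin n' → Bool)) := by
    apply Function.Embedding.nonempty_of_card_le
    rw [Fintype.card_fin, Fintype.card_fun, Fintype.card_bool, Fintype.card_fin]
    exact hmle
  set xx : Fin m → List Bool := fun i => false :: false :: List.ofFn (ι i) with hxx
  have hxl : ∀ i, (xx i).length = n' + 2 := fun i => by simp [hxx]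
  have hxinj : ∀ i i', xx i = xx i' → i = i' := by
    intro i i' h
    simp only [hxx, List.cons.injEq, true_and] at h
    exact ι.injective (List.ofFn_injective h)
  choose Q hQc hQl hQ using fun i : Fin m => hR (xx i) a s
  -- the positions
  have hpos : ∀ y : List Bool, y.length ≤ 2 * (n' + 2) → idx y < N := by
    intro y hy
    apply idx_lt_of
    exact (Nat.pow_le_pow_right (by norm_num) (by omega)).trans hN
  have hposQ : ∀ y : List Bool, y.length ≤ 2 ^ (R * (s + 1)) → idx y < N := by
    intro y hy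
    apply idx_lt_of
    exact (Nat.pow_le_pow_right (by norm_num) (by omega)).trans hN'
  set pos : (Fin m × Fin (n' + 2)) ⊕ (Fin (n' + 2) → Bool) → List Bool := fun p =>
    Sum.elim (fun p => adr (xx p.1) p.2) (fun v => List.ofFn v) p with hposd
  have hposl : ∀ p, (pos p).length ≤ 2 * (n' + 2) := by
    rintro (⟨i, j⟩ | v)
    · simp only [hposd, Sum.elim_inl]
      rw [length_adr (by rw [hxl]; exact j.2.le), hxl]
    · simp only [hposd, Sum.elim_inr, List.length_ofFn]
      omega
  have hposinj : Function.Injective pos := by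
    rintro (⟨i, j⟩ | v) (⟨i', j'⟩ | v') h
    · simp only [hposd, Sum.elim_inl] at h
      obtain ⟨h1, h2⟩ := adr_inj (by rw [hxl, hxl]) h
      rw [hxinj _ _ h1, Fin.ext h2]
    · exfalso
      have h1 := congrArg List.length h
      simp only [hposd, Sum.elim_inl, Sum.elim_inr, List.length_ofFn] at h1
      rw [length_adr (by rw [hxl]; exact j.2.le), hxl] at h1
      omega
    · exfalso
      have h1 := congrArg List.length h
      simp only [hposd, Sum.elim_inl, Sum.elim_inr, List.length_ofFn] at h1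
      rw [length_adr (by rw [hxl]; exact j'.2.le), hxl] at h1
      omega
    · simp only [hposd, Sum.elim_inr] at h
      rw [List.ofFn_injective h]
  set φ : (Fin m × Fin (n' + 2)) ⊕ (Fin (n' + 2) → Bool) → Fin N :=
    fun p => ⟨idx (pos p), hpos _ (hposl p)⟩ with hφd
  have hφ : Function.Injective φ := by
    intro p p' h
    exact hposinj (idx_inj (congrArg Fin.val h))
  -- the equivalence
  let e0 : (Fin N → Bool) ≃ ({x // x ∈ Set.range φ} → Bool) × ({x // ¬ x ∈ Set.range φ} → Bool) :=
    Equiv.piEquivPiSubtypeProd (fun x => x ∈ Set.range φ) (fun _ => Bool)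
  let e1 : ({x // x ∈ Set.range φ} → Bool) ≃
      (Fin m → Fin (n' + 2) → Bool) × ((Fin (n' + 2) → Bool) → Bool) :=
    ((Equiv.arrowCongr (Equiv.ofInjective φ hφ).symm (Equiv.refl Bool)).trans
      (Equiv.sumArrowEquivProdArrow _ _ _)).trans
      (Equiv.prodCongr (Equiv.curry (Fin m) (Fin (n' + 2)) Bool) (Equiv.refl _))
  let e : (Fin N → Bool) ≃ ((Fin m → Fin (n' + 2) → Bool) × ((Fin (n' + 2) → Bool) → Bool)) ×
      ({x // ¬ x ∈ Set.range φ} → Bool) := e0.trans (Equiv.prodCongr e1 (Equiv.refl _))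
  have hw1 : ∀ (b : (Fin m → Fin (n' + 2) → Bool) × ((Fin (n' + 2) → Bool) → Bool))
      (τ : {x // ¬ x ∈ Set.range φ} → Bool) (i : Fin m) (j : Fin (n' + 2)),
      e.symm (b, τ) (φ (Sum.inl (i, j))) = b.1 i j := by
    intro b τ i j
    have h1 : e (e.symm (b, τ)) = (b, τ) := e.apply_symm_apply _
    have h2 : (e (e.symm (b, τ))).1.1 i j = e.symm (b, τ) (φ (Sum.inl (i, j))) := rfl
    rw [← h2, h1]
  have hw2 : ∀ (b : (Fin m → Fin (n' + 2) → Bool) × ((Fin (n' + 2) → Bool) → Bool))
      (τ : {x // ¬ x ∈ Set.range φ} → Bool) (v : Fin (n' + 2) → Bool),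
      e.symm (b, τ) (φ (Sum.inr v)) = b.2 v := by
    intro b τ v
    have h1 : e (e.symm (b, τ)) = (b, τ) := e.apply_symm_apply _
    have h2 : (e (e.symm (b, τ))).1.2 v = e.symm (b, τ) (φ (Sum.inr v)) := rfl
    rw [← h2, h1]
  have hτ : ∀ (b : (Fin m → Fin (n' + 2) → Bool) × ((Fin (n' + 2) → Bool) → Bool))
      (τ : {x // ¬ x ∈ Set.range φ} → Bool) (x : Fin N) (hx : ¬ x ∈ Set.range φ),
      e.symm (b, τ) x = τ ⟨x, hx⟩ := by
    intro b τ x hx
    have h1 : e (e.symm (b, τ)) = (b, τ) := e.apply_symm_apply _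
    have h2 : (e (e.symm (b, τ))).2 ⟨x, hx⟩ = e.symm (b, τ) x := rfl
    rw [← h2, h1]
  have horc : ∀ (ω : Fin N → Bool) (y : List Bool) (hy : idx y < N),
      orc N ω y = ω ⟨idx y, hy⟩ := by
    intro ω y hy
    unfold orc
    rw [dif_pos hy]
  have hpt : ∀ (ω : Fin N → Bool) (y : List Bool) (hy : idx y < N),
      orc N (pt d τ ω) y = if IsCode d y then τ ⟨idx y, hy⟩ else ω ⟨idx y, hy⟩ := by
    intro ω y hy
    rw [horc _ _ hy]
    unfold pt
    simp only [str_idx]
  refine card_bound e _ _ fun τ' => ?_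
  -- the values of the oracle
  set B : (Fin m → Fin (n' + 2) → Bool) × ((Fin (n' + 2) → Bool) → Bool) → Oracle :=
    fun b => orc N (pt d τ (e.symm (b, τ'))) with hB
  have hB1 : ∀ b (i : Fin m) (j : Fin (n' + 2)), B b (adr (xx i) j) = b.1 i j := by
    intro b i j
    have h1 : idx (adr (xx i) j) < N := hpos _ (hposl (Sum.inl (i, j)))
    have h2 : ¬ IsCode d (adr (xx i) j) := by
      have h3 : adr (xx i) j = false :: false :: (List.ofFn (ι i) ++
          (List.replicate j true ++ List.replicate ((xx i).length - j) false)) := rfl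
      rw [h3]
      exact not_isCode_head _
    simp only [hB]
    rw [hpt _ _ h1, if_neg h2]
    exact hw1 b τ' i j
  have hB2 : ∀ b (v : Fin (n' + 2) → Bool), ¬ IsCode d (List.ofFn v) →
      B b (List.ofFn v) = b.2 v := by
    intro b v h2
    have h1 : idx (List.ofFn v) < N := hpos _ (hposl (Sum.inr v))
    simp only [hB]
    rw [hpt _ _ h1, if_neg h2]
    exact hw2 b τ' v
  have htv : ∀ v : Fin (n' + 2) → Bool, ∃ c : Bool, IsCode d (List.ofFn v) →
      ∀ b, B b (List.ofFn v) = c := by
    intro v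
    have h1 : idx (List.ofFn v) < N := hpos _ (hposl (Sum.inr v))
    refine ⟨τ ⟨idx (List.ofFn v), h1⟩, fun h2 b => ?_⟩
    simp only [hB]
    rw [hpt _ _ h1, if_pos h2]
  choose tv htv using htv
  have hptr : ∀ b (i : Fin m), ptr (B b) (xx i) = List.ofFn (b.1 i) := by
    intro b i
    exact ptr_ofFn (hxl i) _ fun j => hB1 b i j
  set U₁ : Finset (Fin (n' + 2) → Bool) :=
    Finset.univ.filter fun v => ∃ i, List.ofFn v ∈ Q i with hU₁
  set U₂ : Finset (Fin (n' + 2) → Bool) :=
    Finset.univ.filter fun v => IsCode d (List.ofFn v) with hU₂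
  have hUc₁ : U₁.card ≤ m * 2 ^ (R * (s + 1)) := by
    have h1 : U₁.card ≤ (Finset.univ.biUnion Q).card := by
      refine Finset.card_le_card_of_injOn (fun v => List.ofFn v) ?_ ?_
      · intro v hv
        rw [Finset.mem_coe, hU₁, Finset.mem_filter] at hv
        obtain ⟨-, i, hi⟩ := hv
        rw [Finset.mem_coe, Finset.mem_biUnion]
        exact ⟨i, Finset.mem_univ _, hi⟩
      · exact fun v _ v' _ h => List.ofFn_injective h
    refine h1.trans (Finset.card_biUnion_le.trans ?_)
    refine (Finset.sum_le_sum fun i _ => hQc i).trans (le_of_eq ?_)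
    rw [Finset.sum_const, Finset.card_univ, Fintype.card_fin, smul_eq_mul]
  have hUc₂ : U₂.card ≤ K := by
    refine le_trans (le_of_eq ?_) hK
    rw [← Set.ncard_coe_finset]
    congr 1
    ext v
    simp [hU₂]
  set U := U₁ ∪ U₂ with hU
  have hUc : U.card ≤ m * 2 ^ (R * (s + 1)) + K :=
    (Finset.card_union_le _ _).trans (Nat.add_le_add hUc₁ hUc₂)
  have hagree : ∀ (w : Fin m → Fin (n' + 2) → Bool) (β β' : (Fin (n' + 2) → Bool) → Bool)
      (i : Fin m), (∀ v ∈ U, β v = β' v) → ∀ q ∈ Q i, B (w, β) q = B (w, β') q := by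
    intro w β β' i h q hq
    have hqN : idx q < N := hposQ q (hQl i q hq)
    by_cases hcq : IsCode d q
    · simp only [hB]
      rw [hpt _ _ hqN, hpt _ _ hqN, if_pos hcq, if_pos hcq]
    by_cases hr : (⟨idx q, hqN⟩ : Fin N) ∈ Set.range φ
    · obtain ⟨p, hp⟩ := hr
      have hpq : pos p = q := idx_inj (congrArg Fin.val hp)
      rcases p with ⟨i', j'⟩ | v
      · have h1 : adr (xx i') j' = q := hpq
        rw [← h1, hB1, hB1]
      · have h1 : List.ofFn v = q := hpq
        rw [← h1] at hcq ⊢
        rw [hB2 _ _ hcq, hB2 _ _ hcq]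
        apply h
        rw [hU, Finset.mem_union]
        left
        rw [hU₁, Finset.mem_filter]
        exact ⟨Finset.mem_univ _, i, by rw [h1]; exact hq⟩
    · simp only [hB]
      rw [hpt _ _ hqN, hpt _ _ hqN, if_neg hcq, if_neg hcq, hτ _ _ _ hr, hτ _ _ _ hr]
  -- the decisions
  set dec : (Fin m → Fin (n' + 2) → Bool) → ((Fin (n' + 2) → Bool) → Bool) → Fin m → Bool :=
    fun w β i => if IsCode d (List.ofFn (w i)) then
      (if decide (BAcc P (B (w, β)) (xx i) a s) = tv (w i) then β (w i) else !(β (w i)))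
      else decide (BAcc P (B (w, β)) (xx i) a s) with hdec
  have hcore := p_core (Fin (n' + 2) → Bool) m U dec (by
      rw [Fintype.card_fun, Fintype.card_bool, Fintype.card_fin]
      omega) (by
      intro w β β' i h
      have h1 := hQ i (B (w, β)) (B (w, β')) (hagree w β β' i h)
      have h2 : decide (BAcc P (B (w, β)) (xx i) a s) = decide (BAcc P (B (w, β')) (xx i) a s) := by
        simp only [h1]
      simp only [hdec]
      by_cases hc : IsCode d (List.ofFn (w i))
      · rw [if_pos hc, if_pos hc, h2, h (w i) (by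
          rw [hU, Finset.mem_union]
          right
          rw [hU₂, Finset.mem_filter]
          exact ⟨Finset.mem_univ _, hc⟩)]
      · rw [if_neg hc, if_neg hc, h2])
  have hcardV : (Fintype.card ((Fin m → Fin (n' + 2) → Bool) ×
      ((Fin (n' + 2) → Bool) → Bool)) : ℝ) =
      (Fintype.card (Fin (n' + 2) → Bool) : ℝ) ^ m * 2 ^ Fintype.card (Fin (n' + 2) → Bool) := by
    rw [Fintype.card_prod, Fintype.card_fun (β := Fin (n' + 2) → Bool), Fintype.card_fin,
      Fintype.card_fun (β := Bool) (α := Fin (n' + 2) → Bool), Fintype.card_bool]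
    push_cast
    rfl
  rw [hcardV, ← mul_assoc]
  refine le_trans ?_ hcore
  have hle : Nat.card {b : (Fin m → Fin (n' + 2) → Bool) × ((Fin (n' + 2) → Bool) → Bool) //
      ∀ x : List Bool, x.length = n' + 2 → (BAcc P (orc N (pt d τ (e.symm (b, τ')))) x a s ↔
        x ∈ hard (orc N (pt d τ (e.symm (b, τ')))))} ≤
      Nat.card {p : (Fin m → Fin (n' + 2) → Bool) × ((Fin (n' + 2) → Bool) → Bool) //
        ∀ i, dec p.1 p.2 i = p.2 (p.1 i)} := by
    refine Nat.card_le_card_of_injective (fun b => ⟨b.1, fun i => ?_⟩) ?_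
    · have h1 := b.2 (xx i) (hxl i)
      have h2 : (xx i ∈ hard (B b.1)) ↔ B b.1 (List.ofFn (b.1.1 i)) = true := by
        show B b.1 (ptr (B b.1) (xx i)) = true ↔ _
        rw [hptr]
      have h3 : BAcc P (B (b.1.1, b.1.2)) (xx i) a s ↔ B b.1 (List.ofFn (b.1.1 i)) = true :=
        h1.trans h2
      have h4 : decide (BAcc P (B (b.1.1, b.1.2)) (xx i) a s) = B b.1 (List.ofFn (b.1.1 i)) := by
        cases h5 : B b.1 (List.ofFn (b.1.1 i)) with
        | true =>
          rw [decide_eq_true_iff]
          exact h3.2 h5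
        | false =>
          rw [decide_eq_false_iff_not]
          intro h6
          rw [h3.1 h6] at h5
          exact absurd h5 (by simp)
      simp only [hdec]
      by_cases hc : IsCode d (List.ofFn (b.1.1 i))
      · rw [if_pos hc, if_pos]
        rw [h4, htv _ hc]
      · rw [if_neg hc, h4, hB2 _ _ hc]
    · rintro ⟨b, hb⟩ ⟨b', hb'⟩ h
      simp only [Subtype.mk.injEq] at h
      exact Subtype.ext h
  exact_mod_cast hle

end Pool.Agent.W2helper26.DL
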