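import Pool.Agent.W2helper86.PL.Main
import Pool.Agent.W2helper26.DT.FIN

/-!
# Project DL: languages with few words, and logarithmic space. The pieces: exact statements

Every definition `P_...` below is one piece; prove `theorem p_... : P_...` in a file of your own,
`Pool/Agent/W2<seat>/DL/<name>.lean`.
-/

set_option autoImplicit false

namespace Pool.Agent.W2helper26.DL

open Filter Pool.Agent.NPC Pool.Agent.H620R2.Gauge Pool.Agent.W2helper86.PL
open Pool.Agent.W2helper26.DT (census mm ff)

/-! ### Padding -/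

/-- the length of the padded word -/
def padLen (k D n : ℕ) : ℕ := n + 2 ^ (D * (Nat.size n + 1) ^ k)

/-- the padded word: zeros are added; since `padLen` is strictly increasing, the padded word
determines the word -/
def padw (k D : ℕ) (x : List Bool) : List Bool :=
  x ++ List.replicate (2 ^ (D * (Nat.size x.length + 1) ^ k)) false

/-- the padded language -/
def padL (k D : ℕ) (L : Set (List Bool)) : Set (List Bool) := {y | ∃ x ∈ L, y = padw k D x}

/-- Piece SIM. Simulation of a register machine on the padded input.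
Program `P'`: first the blocks of `Pool.Agent.W2helper65.PL.prog` (file `W2helper65/PL/Prog.lean`:
`[.set 7 1] ++ cnt 1 ++ siz 4 ++ [.set 3 D] ++ muls 10 k ++ pow (10 + 7 * k)`; their run lemmas
`run_cnt`, `run_siz`, `run_muls`, `run_pow` are there, see `run_prog`), which compute
`2 ^ (D * (size n + 1) ^ k)` in register 6, then `cnt` again (register 1 becomes `n`), then
`add 6 6 1` (register 6 is now the length `m` of the padded word). Then the program `P` with
the registers shifted by 8 (`r` becomes `r + 8`; they are still zero), line `l` of `P` being the two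
lines `off + 2 * l` and `off + 2 * l + 1`: every instruction `i` becomes `[i', set 0 0]`, only
`jend r l` becomes `[sub 4 6 (r + 8), jzero 4 (off + 2 * l)]`. Note that `jbit` needs no
change: `(padw k D x).getD i false = x.getD i false`. Since there is no `guess`, it is enough to
simulate the run of `P` which halts, by a bounded run (`Rn`), and to use `bounded_of_run`,
`halts_of_run`. -/
def P_sim : Prop := ∀ (k D c : ℕ), 1 ≤ k → ∀ P : List Ins, (∀ l, Ins.guess l ∉ P) →
  ∃ (P' : List Ins) (c' : ℕ), (∀ l, Ins.guess l ∉ P') ∧ ∀ (A : Oracle) (x : List Bool) (b : Bool),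
    InSpace P A (padw k D x) [] (c * Nat.size (padw k D x).length + c) →
    Halts P A (padw k D x) [] b →
    InSpace P' A x [] (c' * Nat.size x.length ^ k + c') ∧ Halts P' A x [] b

/-- Piece PADP. The padded language is in `P`. The number `padLen k D n` is `Poly` in `n`
(`Pool.Agent.W2helper57.PPH.poly_two_pow` in `W2helper57/PPH/Lang.lean`; `size n` is the length of
`n.bits`); the length `n` of the word is the number of the `n < |y|` with `padLen k D n < |y|`
(`Poly.filter`, `Poly.range_length`, `Poly.length`); `poly_take` is in `W2helper57/PPH/TakeDrop.lean`.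
Compare `isP_of_eventually` in `W2helper26/DT/COD.lean` and `W2helper26/DT/PAD.lean`. -/
def P_padP : Prop := ∀ (k D : ℕ) (A : Oracle) (L : Set (List Bool)), IsP A L → IsP A (padL k D L)

/-- Piece PADC. The number of padded words of length `m`. -/
def P_padC : Prop := ∀ (k D : ℕ) (L : Set (List Bool)) (m : ℕ),
  (∃ n, m = padLen k D n ∧ census (padL k D L) m ≤ 2 ^ n) ∨ census (padL k D L) m = 0

/-! ### Numbers -/

/-- Piece NUMC. Take `D` with `δ ^ k * D ≥ 1` and `D` larger than the number from which on the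
inequality for `s` holds; `padLen k D n ≥ 2 ^ (D * (size n + 1) ^ k)`, and `n ≤ 2 ^ (size n)`. -/
def P_numC : Prop := ∀ (k : ℕ), 1 ≤ k → ∀ (s : ℕ → ℕ) (δ : ℝ), 0 < δ →
  (∀ᶠ n : ℕ in atTop, 2 ^ ((2 : ℝ) ^ (δ * Real.logb 2 n ^ (1 / (k : ℝ)))) ≤ (s n : ℝ)) →
  ∃ D : ℕ, ∀ n, 2 ^ n ≤ s (padLen k D n)

/-- Piece GROW. Compare `growth`, `growth_aux` in `W2helper26/DT/FIN.lean` (there `k = 1`):
`ff s N = (ℓ + 1) * ∑ n ≤ ℓ, s n * log₂ (N + 1)`, `ℓ = log₂ N`. -/
def P_grow : Prop := ∀ (k : ℕ), 1 ≤ k → ∀ s : ℕ → ℕ,
  (∀ δ : ℝ, 0 < δ → ∀ᶠ n : ℕ in atTop,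
    (s n : ℝ) ≤ 2 ^ ((2 : ℝ) ^ (δ * Real.logb 2 n ^ (1 / (k : ℝ))))) →
  CondK (ff s) k

end Pool.Agent.W2helper26.DL
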