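import Pool.Agent.W2helper26.DL.Stm
import Pool.Agent.W2helper19.DL.PadC
import Pool.Agent.W2helper19.DL.NumC
import Pool.Agent.W2helper17.DL.PadP
import Pool.Agent.H622R2.CoNP

/-!
# Padding: from the languages with few words to all languages
-/

set_option autoImplicit false

namespace Pool.Agent.W2helper26.DL

open Filter Pool.Agent.NPC Pool.Agent.H620R2.Gauge Pool.Agent.W2helper86.PL
open Pool.Agent.W2helper26.DT (census)
open Pool.Agent.W2helper19.DL Pool.Agent.W2helper17.DL

theorem padw_inj {k D : ℕ} {x x' : List Bool} (h : padw k D x = padw k D x') : x = x' := by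
  have h1 : padLen k D x.length = padLen k D x'.length := by
    rw [← length_padw, ← length_padw, h]
  have h2 : x.length = x'.length := (Pool.Agent.W2helper19.DL.padLen_strictMono k D).injective h1
  exact (List.append_inj h h2).1

open Pool.Agent.H622R2 in
open Pool.Agent.W2helper57.PPH (poly_take) in
/-- the same for `NP` -/
theorem isNP_padL (k D : ℕ) {A : Oracle} {L : Set (List Bool)} (hL : IsNP A L) :
    IsNP A (padL k D L) := by
  classical
  obtain ⟨V, p, hV, hVL⟩ := hL
  have h1 : NPC.Poly (fun z : List Bool => (unpair z).1) := NPC.Poly.fst poly_unpair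
  have h2 : NPC.Poly (fun z : List Bool => (unpair z).2) := NPC.Poly.snd poly_unpair
  -- the question
  have hg : NPC.Poly (fun z : List Bool =>
      pairBits (unpair z).1 ((unpair z).2.take (ln k D (unpair z).2))) :=
    poly_pairBits h1 (poly_take h2 ((poly_ln k D).comp h2))
  -- the test and the answer
  let F : List Bool → List Bool := fun u =>
    if (tst k D (unpair (unpair u).1).2 && decide ((unpair (unpair u).1).1.length ≤
      p.eval ((unpair (unpair u).1).2.take (ln k D (unpair (unpair u).1).2)).length)) = true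
    then (unpair u).2 else [false]
  have h3 : NPC.Poly (fun u : List Bool => (unpair (unpair u).1).1) := h1.comp h1
  have h4 : NPC.Poly (fun u : List Bool => (unpair (unpair u).1).2) := h2.comp h1
  have h5 : NPC.Poly (fun u : List Bool =>
      (unpair (unpair u).1).2.take (ln k D (unpair (unpair u).1).2)) :=
    poly_take h4 ((poly_ln k D).comp h4)
  have hF : NPC.Poly F := NPC.Poly.ite (NPC.Poly.decide_bool (NPC.Poly.and
    ((poly_tst k D).comp h4) (NPC.Poly.decide_le (NPC.Poly.length h3)
      ((UPoly.length h5).eval p).toPoly))) h2 (NPC.Poly.const _)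
  refine ⟨fun z => F (pairBits z (V (pairBits (unpair z).1
    ((unpair z).2.take (ln k D (unpair z).2))))), p, ?_, fun y => ?_⟩
  · exact IsFP.comp (IsFP.of_poly hF) (IsFP.pair (IsFP.of_poly NPC.Poly.id) (hV.precomp hg))
  · rw [mem_padL_iff, hVL]
    simp only [F, unpair_pairBits]
    constructor
    · rintro ⟨h6, w, h7, h8⟩
      refine ⟨w, h7.trans (eval_mono _ (List.length_take_le' _ _)), ?_⟩
      rw [if_pos (by rw [Bool.and_eq_true, decide_eq_true_eq]; exact ⟨h6, h7⟩)]
      exact h8
    · rintro ⟨w, h7, h8⟩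
      by_cases h9 : (tst k D y && decide (w.length ≤ p.eval (y.take (ln k D y)).length)) = true
      · rw [if_pos h9] at h8
        rw [Bool.and_eq_true, decide_eq_true_eq] at h9
        exact ⟨h9.1, w, h9.2, h8⟩
      · rw [if_neg h9] at h8
        exact absurd h8 (by simp)

theorem up_of_sim (hsim : P_sim) {k : ℕ} (hk : 1 ≤ k) {s : ℕ → ℕ} {δ : ℝ} (hδ : 0 < δ)
    (hs : ∀ᶠ n : ℕ in atTop, 2 ^ ((2 : ℝ) ^ (δ * Real.logb 2 n ^ (1 / (k : ℝ)))) ≤ (s n : ℝ))
    {A : Oracle} (X : Set (List Bool) → Prop) (hX : ∀ (D : ℕ) L, X L → X (padL k D L))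
    (hA : ∀ L, X L → (∀ n, census L n ≤ s n) → IsDSpace A 1 L)
    {L : Set (List Bool)} (hL : X L) : IsDSpace A k L := by
  obtain ⟨D, hD⟩ := p_numC k hk s δ hδ hs
  have hcen : ∀ m, census (padL k D L) m ≤ s m := by
    intro m
    rcases p_padC k D L m with ⟨n, h1, h2⟩ | h1
    · exact h2.trans (h1 ▸ hD n)
    · rw [h1]
      exact Nat.zero_le _
  obtain ⟨P, c, hP, h⟩ := hA _ (hX D L hL) hcen
  obtain ⟨P', c', hP', h'⟩ := hsim k D c hk P hP
  refine ⟨P', c', hP', fun x => ?_⟩
  obtain ⟨h1, b, h2, h3⟩ := h (padw k D x)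
  rw [pow_one] at h1
  obtain ⟨h4, h5⟩ := h' A x b h1 h2
  refine ⟨h4, b, h5, ?_⟩
  rw [← h3]
  constructor
  · intro hx
    exact ⟨x, hx, rfl⟩
  · rintro ⟨x', hx', he⟩
    rw [padw_inj he]
    exact hx'

end Pool.Agent.W2helper26.DL
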